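import Pool.Agent.Helper43.LO.Goals

set_option autoImplicit false

/-! Packet LO-PLAT (MP_c13f7d_co): the middle part of the third class. -/

namespace Pool.Agent.Helper86.LO

open Finset Pool.Agent.Helper33.Schur Pool.Agent.Helper43.LO

lemma col_zero {m x : ℕ} (hm : 1 ≤ m) (hx : 1 ≤ x) (h : x ≤ 10 * m) : col m x = 0 := by
  unfold col blk
  have h1 : (x - 1) / m < 10 := by
    rw [Nat.div_lt_iff_lt_mul hm]; omega
  rw [if_pos h1]

lemma col_two {m x : ℕ} (hm : 1 ≤ m) (hx : 1 ≤ x) (h : 26 * m < x) (h' : x ≤ 54 * m) :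
    col m x = 2 := by
  unfold col blk
  have h1 : 26 ≤ (x - 1) / m := by
    rw [Nat.le_div_iff_mul_le hm]; omega
  have h2 : (x - 1) / m < 54 := by
    rw [Nat.div_lt_iff_lt_mul hm]; omega
  rw [if_neg (by omega), if_neg (by omega), if_neg (by omega), if_pos h2]

lemma of_col_two {m x : ℕ} (hm : 1 ≤ m) (hx : 1 ≤ x) (h : col m x = 2) :
    26 * m < x ∧ x ≤ 54 * m := by
  unfold col blk at h
  have h3 : ¬ (x - 1) / m < 26 := by
    intro h4
    split_ifs at h <;> simp_all
  have h5 : (x - 1) / m < 54 := by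
    by_contra h4
    rw [if_neg (by omega), if_neg (by omega), if_neg (by omega), if_neg h4] at h
    split_ifs at h <;> simp_all
  rw [not_lt, Nat.le_div_iff_mul_le hm] at h3
  rw [Nat.div_lt_iff_lt_mul hm] at h5
  omega

lemma pairs_lt (A : Finset ℕ) :
    2 * ((A ×ˢ A).filter (fun q => q.1 < q.2)).card + A.card = A.card ^ 2 := by
  have h1 := Finset.card_filter_add_card_filter_not (s := A ×ˢ A) (fun q => q.1 < q.2)
  have h2 : ((A ×ˢ A).filter (fun q => ¬ q.1 < q.2)) =
      ((A ×ˢ A).filter (fun q => q.2 < q.1)) ∪ ((A ×ˢ A).filter (fun q => q.1 = q.2)) := by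
    ext q
    simp only [mem_filter, mem_union, mem_product]
    constructor
    · rintro ⟨h, h'⟩
      rcases lt_trichotomy q.1 q.2 with h3 | h3 | h3
      · exact absurd h3 h'
      · exact Or.inr ⟨h, h3⟩
      · exact Or.inl ⟨h, h3⟩
    · rintro (⟨h, h'⟩ | ⟨h, h'⟩)
      · exact ⟨h, by omega⟩
      · exact ⟨h, by omega⟩
  have h3 : ((A ×ˢ A).filter (fun q => q.2 < q.1)).card =
      ((A ×ˢ A).filter (fun q => q.1 < q.2)).card := by
    refine Finset.card_bij (fun q _ => (q.2, q.1)) ?_ ?_ ?_
    · intro q hq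
      simp only [mem_filter, mem_product] at hq ⊢
      exact ⟨⟨hq.1.2, hq.1.1⟩, hq.2⟩
    · intro a _ b _ h
      simp only [Prod.mk.injEq] at h
      exact Prod.ext h.2 h.1
    · intro b hb
      simp only [mem_filter, mem_product] at hb
      exact ⟨(b.2, b.1), by simp only [mem_filter, mem_product]; exact ⟨⟨hb.1.2, hb.1.1⟩, hb.2⟩,
        rfl⟩
  have h4 : ((A ×ˢ A).filter (fun q => q.1 = q.2)).card = A.card := by
    refine (Finset.card_bij (fun a _ => (a, a)) ?_ ?_ ?_).symm
    · intro a ha
      simp only [mem_filter, mem_product]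
      exact ⟨⟨ha, ha⟩, trivial⟩
    · intro a _ b _ h
      simp only [Prod.mk.injEq] at h
      exact h.1
    · intro b hb
      simp only [mem_filter, mem_product] at hb
      exact ⟨b.1, hb.1.1, Prod.ext rfl hb.2⟩
  rw [h2, card_union_of_disjoint, h3, h4, card_product] at h1
  · rw [pow_two]; omega
  · rw [disjoint_left]
    intro q hq hq'
    simp only [mem_filter] at hq hq'
    omega

theorem goalPLAT : G_PLAT := by
  intro m χ hm
  classical
  set N := 67 * m with hN
  set P := PP m χ with hP
  set R := RR m χ with hR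
  set χ1 : ℕ → Fin 3 := fun x => if x ∈ P then col m x else χ x with hχ1
  have memP : ∀ x, x ∈ P ↔ (1 ≤ x ∧ x ≤ N) ∧ 29 * m < x ∧ x ≤ 51 * m ∧ χ x = 0 := by
    intro x
    rw [hP]
    unfold PP isP
    simp only [mem_filter, mem_Icc]
    rfl
  set Mo : (ℕ → Fin 3) → Finset (ℕ × ℕ) := fun ψ => (Icc 1 N ×ˢ Icc 1 N).filter
    (fun q : ℕ × ℕ => q.1 + q.2 ≤ N ∧ ψ q.1 = ψ q.2 ∧ ψ q.2 = ψ (q.1 + q.2)) with hMo
  have memMo : ∀ ψ q, q ∈ Mo ψ ↔ ((1 ≤ q.1 ∧ q.1 ≤ N) ∧ (1 ≤ q.2 ∧ q.2 ≤ N)) ∧
      q.1 + q.2 ≤ N ∧ ψ q.1 = ψ q.2 ∧ ψ q.2 = ψ (q.1 + q.2) := by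
    intro ψ q
    simp only [hMo, mem_filter, mem_product, mem_Icc]
  set T : ℕ × ℕ → Prop := fun q => q.1 ∈ P ∨ q.2 ∈ P ∨ q.1 + q.2 ∈ P with hT
  have hF : F N χ = (Mo χ).card := rfl
  have hF1 : F N χ1 = (Mo χ1).card := rfl
  have c1 := Finset.card_filter_add_card_filter_not (s := Mo χ) T
  have c2 := Finset.card_filter_add_card_filter_not (s := Mo χ1) T
  have hnT : (Mo χ).filter (fun q => ¬ T q) = (Mo χ1).filter (fun q => ¬ T q) := by
    ext q
    simp only [mem_filter]
    constructor
    · rintro ⟨h1, h2⟩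
      refine ⟨?_, h2⟩
      simp only [hT, not_or] at h2
      rw [memMo] at h1 ⊢
      simp only [hχ1, if_neg h2.1, if_neg h2.2.1, if_neg h2.2.2]
      exact h1
    · rintro ⟨h1, h2⟩
      refine ⟨?_, h2⟩
      simp only [hT, not_or] at h2
      rw [memMo] at h1 ⊢
      simp only [hχ1, if_neg h2.1, if_neg h2.2.1, if_neg h2.2.2] at h1
      exact h1
  have hlc : ∀ i : Fin 6, lc i = 2 → i = 3 := by decide
  have hrc : ∀ i : Fin 6, rc i = 2 → i = 2 := by decide
  -- members of colour 2 under `χ1`, not in `R`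
  have key : ∀ z, 1 ≤ z → z ≤ N → χ1 z = 2 → z ∉ R → 103 * m < 4 * z ∧ 4 * z ≤ 217 * m := by
    intro z hz1 hzN hz2 hzR
    by_cases hzP : z ∈ P
    · have := (memP z).1 hzP
      omega
    · simp only [hχ1, if_neg hzP] at hz2
      by_cases hc : col m z = 2
      · have := of_col_two hm hz1 hc
        omega
      · have hd : z ∈ dif (67 * m) χ (col m) := by
          unfold dif
          simp only [mem_filter, mem_Icc]
          exact ⟨⟨hz1, hzN⟩, by rw [hz2]; exact fun h => hc h.symm⟩
        have h3 : ∃ i : Fin 6, isR m i z (χ z) ∨ isL m i z (χ z) := by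
          by_contra hcon
          push Not at hcon
          apply hzR
          rw [hR]
          unfold RR
          simp only [mem_filter]
          refine ⟨hd, ?_, fun i => hcon i⟩
          rintro ⟨_, _, h⟩
          rw [hz2] at h
          exact absurd h (by decide)
        obtain ⟨i, hi | hi⟩ := h3
        · unfold isR at hi
          rw [hz2] at hi
          obtain ⟨a1, a2, a3⟩ := hi
          have hi3 : i = 3 := hlc i a3.symm
          subst hi3
          have he3 : e 3 = 54 := rfl
          rw [he3] at a1 a2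
          omega
        · unfold isL at hi
          rw [hz2] at hi
          obtain ⟨a1, a2, a3⟩ := hi
          have hi3 : i = 2 := hrc i a3.symm
          subst hi3
          have he3 : e 2 = 26 := rfl
          rw [he3] at a1 a2
          omega
  have colP : ∀ z ∈ P, χ1 z = 2 := by
    intro z hz
    simp only [hχ1, if_pos hz]
    have := (memP z).1 hz
    exact col_two hm (by omega) (by omega) (by omega)
  have t1 : ((Mo χ1).filter T).card ≤ 6 * (P.card * R.card) := by
    have hsub : (Mo χ1).filter T ⊆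
        (P ×ˢ R).image (fun r => (r.1, r.2)) ∪ ((P ×ˢ R).image (fun r => (r.2, r.1)) ∪
        ((P ×ˢ R).image (fun r => (r.1, r.2 - r.1)) ∪ ((P ×ˢ R).image (fun r => (r.2, r.1 - r.2)) ∪
        ((P ×ˢ R).image (fun r => (r.2 - r.1, r.1)) ∪
          (P ×ˢ R).image (fun r => (r.1 - r.2, r.2)))))) := by
      rintro ⟨x, y⟩ hq
      simp only [mem_filter, memMo] at hq
      obtain ⟨⟨⟨⟨hx1, hxN⟩, ⟨hy1, hyN⟩⟩, hs, e1, e2⟩, hTq⟩ := hq
      have hall : χ1 x = 2 ∧ χ1 y = 2 ∧ χ1 (x + y) = 2 := by
        rcases hTq with h | h | h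
        · have h2 := colP _ h
          simp only at h2
          exact ⟨h2, by rw [← e1, h2], by rw [← e2, ← e1, h2]⟩
        · have h2 := colP _ h
          simp only at h2
          exact ⟨by rw [e1, h2], h2, by rw [← e2, h2]⟩
        · have h2 := colP _ h
          simp only at h2
          exact ⟨by rw [e1, e2, h2], by rw [e2, h2], h2⟩
      obtain ⟨k1, k2, k3⟩ := hall
      simp only [mem_union, mem_image, mem_product, Prod.exists, Prod.mk.injEq]
      simp only [hT] at hTq
      by_cases r1 : x ∈ R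
      · rcases hTq with h | h | h
        · exfalso
          have h5 := (memP x).1 h
          rw [hR] at r1
          unfold RR at r1
          simp only [mem_filter] at r1
          exact r1.2.1 ⟨h5.2.1, h5.2.2.1, h5.2.2.2⟩
        · exact Or.inr (Or.inl ⟨y, x, ⟨h, r1⟩, rfl, rfl⟩)
        · exact Or.inr (Or.inr (Or.inr (Or.inl ⟨x + y, x, ⟨h, r1⟩, rfl, by omega⟩)))
      · by_cases r2 : y ∈ R
        · rcases hTq with h | h | h
          · exact Or.inl ⟨x, y, ⟨h, r2⟩, rfl, rfl⟩
          · exfalso
            have h5 := (memP y).1 h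
            rw [hR] at r2
            unfold RR at r2
            simp only [mem_filter] at r2
            exact r2.2.1 ⟨h5.2.1, h5.2.2.1, h5.2.2.2⟩
          · exact Or.inr (Or.inr (Or.inr (Or.inr (Or.inr ⟨x + y, y, ⟨h, r2⟩, by omega, rfl⟩))))
        · by_cases r3 : x + y ∈ R
          · rcases hTq with h | h | h
            · exact Or.inr (Or.inr (Or.inl ⟨x, x + y, ⟨h, r3⟩, rfl, by omega⟩))
            · exact Or.inr (Or.inr (Or.inr (Or.inr (Or.inl ⟨y, x + y, ⟨h, r3⟩, by omega, rfl⟩))))
            · exfalso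
              have h5 := (memP (x + y)).1 h
              rw [hR] at r3
              unfold RR at r3
              simp only [mem_filter] at r3
              exact r3.2.1 ⟨h5.2.1, h5.2.2.1, h5.2.2.2⟩
          · exfalso
            have b1 := key x hx1 hxN k1 r1
            have b2 := key y hy1 hyN k2 r2
            have b3 := key (x + y) (by omega) hs k3 r3
            rcases hTq with h | h | h
            · have h5 := (memP x).1 h
              omega
            · have h5 := (memP y).1 h
              omega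
            · have h5 := (memP (x + y)).1 h
              omega
    have hpr : (P ×ˢ R).card = P.card * R.card := card_product _ _
    refine (card_le_card hsub).trans ?_
    refine (card_union_le _ _).trans ?_
    have u1 := card_image_le (s := P ×ˢ R) (f := fun r => (r.1, r.2))
    have u2 := card_image_le (s := P ×ˢ R) (f := fun r => (r.2, r.1))
    have u3 := card_image_le (s := P ×ˢ R) (f := fun r => (r.1, r.2 - r.1))
    have u4 := card_image_le (s := P ×ˢ R) (f := fun r => (r.2, r.1 - r.2))
    have u5 := card_image_le (s := P ×ˢ R) (f := fun r => (r.2 - r.1, r.1))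
    have u6 := card_image_le (s := P ×ˢ R) (f := fun r => (r.1 - r.2, r.2))
    have v1 := card_union_le ((P ×ˢ R).image (fun r => (r.2 - r.1, r.1)))
      ((P ×ˢ R).image (fun r => (r.1 - r.2, r.2)))
    have v2 := card_union_le ((P ×ˢ R).image (fun r => (r.2, r.1 - r.2)))
      ((P ×ˢ R).image (fun r => (r.2 - r.1, r.1)) ∪ (P ×ˢ R).image (fun r => (r.1 - r.2, r.2)))
    have v3 := card_union_le ((P ×ˢ R).image (fun r => (r.1, r.2 - r.1)))
      ((P ×ˢ R).image (fun r => (r.2, r.1 - r.2)) ∪
      ((P ×ˢ R).image (fun r => (r.2 - r.1, r.1)) ∪ (P ×ˢ R).image (fun r => (r.1 - r.2, r.2))))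
    have v4 := card_union_le ((P ×ˢ R).image (fun r => (r.2, r.1)))
      ((P ×ˢ R).image (fun r => (r.1, r.2 - r.1)) ∪
      ((P ×ˢ R).image (fun r => (r.2, r.1 - r.2)) ∪
      ((P ×ˢ R).image (fun r => (r.2 - r.1, r.1)) ∪ (P ×ˢ R).image (fun r => (r.1 - r.2, r.2)))))
    omega
  -- pairs of `P`
  set S := (P ×ˢ P).filter (fun q => q.1 < q.2 ∧ q.2 - q.1 ≤ 9 * m) with hS
  have hsplit := Finset.card_filter_add_card_filter_not (s := S) (fun q => q.2 - q.1 ∈ R)
  have hSR : (S.filter (fun q => q.2 - q.1 ∈ R)).card ≤ P.card * R.card := by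
    rw [← card_product]
    refine Finset.card_le_card_of_injOn (fun q => (q.1, q.2 - q.1)) ?_ ?_
    · intro q hq
      simp only [hS, coe_filter, mem_filter, mem_product, Set.mem_setOf_eq] at hq
      simp only [coe_product, Set.mem_prod, mem_coe]
      exact ⟨hq.1.1.1, hq.2⟩
    · intro a ha b hb hab
      simp only [hS, coe_filter, mem_filter, mem_product, Set.mem_setOf_eq] at ha hb
      simp only [Prod.mk.injEq] at hab
      refine Prod.ext hab.1 ?_
      omega
  have hSge : P.card ^ 2 ≤ 6 * S.card + 3 * P.card := by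
    set P1 := P.filter (fun x => x ≤ 38 * m) with hP1
    set P2 := P.filter (fun x => 38 * m < x ∧ x ≤ 47 * m) with hP2
    set P3 := P.filter (fun x => 47 * m < x) with hP3
    have p1 := pairs_lt P1
    have p2 := pairs_lt P2
    have p3 := pairs_lt P3
    have hPc : P.card ≤ P1.card + P2.card + P3.card := by
      have hsub : P ⊆ P1 ∪ P2 ∪ P3 := by
        intro x hx
        simp only [hP1, hP2, hP3, mem_union, mem_filter]
        by_cases a : x ≤ 38 * m
        · exact Or.inl (Or.inl ⟨hx, a⟩)
        · by_cases b : x ≤ 47 * m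
          · exact Or.inl (Or.inr ⟨hx, by omega, b⟩)
          · exact Or.inr ⟨hx, by omega⟩
      refine (card_le_card hsub).trans ((card_union_le _ _).trans ?_)
      have := card_union_le P1 P2
      omega
    have hPc' : P1.card + P2.card + P3.card ≤ P.card := by
      have hd12 : Disjoint P1 P2 := by
        rw [disjoint_left]; intro x h1 h2
        simp only [hP1, hP2, mem_filter] at h1 h2; omega
      have hd3 : Disjoint (P1 ∪ P2) P3 := by
        rw [disjoint_left]; intro x h1 h2
        simp only [hP1, hP2, hP3, mem_filter, mem_union] at h1 h2; omega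
      rw [← card_union_of_disjoint hd12, ← card_union_of_disjoint hd3]
      refine card_le_card ?_
      intro x hx
      simp only [hP1, hP2, hP3, mem_union, mem_filter] at hx
      rcases hx with (h | h) | h
      · exact h.1
      · exact h.1
      · exact h.1
    have hSs : ((P1 ×ˢ P1).filter (fun q => q.1 < q.2)).card +
        ((P2 ×ˢ P2).filter (fun q => q.1 < q.2)).card +
        ((P3 ×ˢ P3).filter (fun q => q.1 < q.2)).card ≤ S.card := by
      have hd12 : Disjoint ((P1 ×ˢ P1).filter (fun q => q.1 < q.2))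
          ((P2 ×ˢ P2).filter (fun q => q.1 < q.2)) := by
        rw [disjoint_left]; intro x h1 h2
        simp only [hP1, hP2, mem_filter, mem_product] at h1 h2; omega
      have hd3 : Disjoint (((P1 ×ˢ P1).filter (fun q => q.1 < q.2)) ∪
          ((P2 ×ˢ P2).filter (fun q => q.1 < q.2))) ((P3 ×ˢ P3).filter (fun q => q.1 < q.2)) := by
        rw [disjoint_left]; intro x h1 h2
        simp only [hP1, hP2, hP3, mem_filter, mem_union, mem_product] at h1 h2; omega
      rw [← card_union_of_disjoint hd12, ← card_union_of_disjoint hd3]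
      refine card_le_card ?_
      rintro ⟨x, y⟩ hx
      simp only [hP1, hP2, hP3, mem_union, mem_filter, mem_product] at hx
      simp only [hS, mem_filter, mem_product]
      rcases hx with (h | h) | h
      · have a1 := (memP x).1 h.1.1.1
        have a2 := (memP y).1 h.1.2.1
        exact ⟨⟨h.1.1.1, h.1.2.1⟩, h.2, by omega⟩
      · have a1 := (memP x).1 h.1.1.1
        have a2 := (memP y).1 h.1.2.1
        exact ⟨⟨h.1.1.1, h.1.2.1⟩, h.2, by omega⟩
      · have a1 := (memP x).1 h.1.1.1
        have a2 := (memP y).1 h.1.2.1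
        exact ⟨⟨h.1.1.1, h.1.2.1⟩, h.2, by omega⟩
    have hpe : P.card = P1.card + P2.card + P3.card := le_antisymm hPc hPc'
    rw [hpe]
    nlinarith [sq_nonneg ((P1.card : ℤ) - P2.card), sq_nonneg ((P1.card : ℤ) - P3.card),
      sq_nonneg ((P2.card : ℤ) - P3.card), p1, p2, p3, hSs]
  have t2 : 2 * (S.filter (fun q => ¬ q.2 - q.1 ∈ R)).card ≤ ((Mo χ).filter T).card := by
    set S' := S.filter (fun q => ¬ q.2 - q.1 ∈ R) with hS'
    have facts : ∀ q ∈ S', 1 ≤ q.2 - q.1 ∧ q.2 - q.1 ≤ 9 * m ∧ q.1 < q.2 ∧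
        29 * m < q.1 ∧ q.2 ≤ 51 * m ∧ χ q.1 = 0 ∧ χ q.2 = 0 ∧ χ (q.2 - q.1) = 0 ∧ q.1 ∈ P := by
      intro q hq
      simp only [hS', hS, mem_filter, mem_product] at hq
      obtain ⟨⟨⟨h1, h2⟩, h3, h4⟩, h5⟩ := hq
      have a1 := (memP q.1).1 h1
      have a2 := (memP q.2).1 h2
      have h6 : χ (q.2 - q.1) = 0 := by
        have hc0 : col m (q.2 - q.1) = 0 := col_zero hm (by omega) (by omega)
        by_contra hne
        apply h5
        rw [hR]
        unfold RR
        simp only [mem_filter]
        refine ⟨?_, ?_, ?_⟩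
        · unfold dif
          simp only [mem_filter, mem_Icc]
          exact ⟨⟨by omega, by omega⟩, by rw [hc0]; exact hne⟩
        · rintro ⟨h, -, -⟩
          omega
        · intro i
          constructor
          · rintro ⟨h, -, -⟩
            fin_cases i <;> simp [e] at h <;> omega
          · rintro ⟨-, h, -⟩
            fin_cases i <;> simp [e] at h <;> omega
      exact ⟨by omega, h4, h3, a1.2.1, a2.2.2.1, a1.2.2.2, a2.2.2.2, h6, h1⟩
    have hi1 : (S'.image (fun q => (q.2 - q.1, q.1))).card = S'.card := by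
      apply card_image_of_injOn
      intro a ha b hb hab
      have fa := facts a ha
      have fb := facts b hb
      simp only [Prod.mk.injEq] at hab
      refine Prod.ext hab.2 ?_
      omega
    have hi2 : (S'.image (fun q => (q.1, q.2 - q.1))).card = S'.card := by
      apply card_image_of_injOn
      intro a ha b hb hab
      have fa := facts a ha
      have fb := facts b hb
      simp only [Prod.mk.injEq] at hab
      refine Prod.ext hab.1 ?_
      omega
    have hdis : Disjoint (S'.image (fun q => (q.2 - q.1, q.1)))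
        (S'.image (fun q => (q.1, q.2 - q.1))) := by
      rw [disjoint_left]
      rintro ⟨x, y⟩ h1 h2
      simp only [mem_image, Prod.mk.injEq] at h1 h2
      obtain ⟨a, ha, ha1, ha2⟩ := h1
      obtain ⟨b, hb, hb1, hb2⟩ := h2
      have fa := facts a ha
      have fb := facts b hb
      omega
    have hsub : (S'.image (fun q => (q.2 - q.1, q.1))) ∪ (S'.image (fun q => (q.1, q.2 - q.1))) ⊆
        (Mo χ).filter T := by
      rintro ⟨x, y⟩ h
      simp only [mem_union, mem_image, Prod.mk.injEq] at h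
      rcases h with ⟨a, ha, ha1, ha2⟩ | ⟨a, ha, ha1, ha2⟩
      · have fa := facts a ha
        obtain ⟨f1, f2, f3, f4, f5, f6, f7, f8, f9⟩ := fa
        simp only [mem_filter, memMo, hT]
        have hsum : x + y = a.2 := by omega
        rw [hsum, ← ha1, ← ha2]
        exact ⟨⟨⟨⟨f1, by omega⟩, ⟨by omega, by omega⟩⟩, by omega, by rw [f8, f6], by rw [f6, f7]⟩,
          Or.inr (Or.inl f9)⟩
      · have fa := facts a ha
        obtain ⟨f1, f2, f3, f4, f5, f6, f7, f8, f9⟩ := fa
        simp only [mem_filter, memMo, hT]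
        have hsum : x + y = a.2 := by omega
        rw [hsum, ← ha1, ← ha2]
        exact ⟨⟨⟨⟨by omega, by omega⟩, ⟨f1, by omega⟩⟩, by omega, by rw [f8, f6], by rw [f8, f7]⟩,
          Or.inl f9⟩
    have := card_le_card hsub
    rw [card_union_of_disjoint hdis, hi1, hi2] at this
    omega
  rw [hnT] at c1
  have hfin : ((F N χ : ℕ) : ℤ) - F N χ1 =
      ((Mo χ).filter T).card - ((Mo χ1).filter T).card := by
    rw [hF, hF1]
    omega
  have q1 : (P.card : ℤ) ^ 2 ≤ 6 * S.card + 3 * P.card := by exact_mod_cast hSge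
  have q2 : (((Mo χ1).filter T).card : ℤ) ≤ 6 * (P.card * R.card) := by exact_mod_cast t1
  have q3 : 2 * ((S.filter (fun q => ¬ q.2 - q.1 ∈ R)).card : ℤ) ≤ ((Mo χ).filter T).card := by
    exact_mod_cast t2
  have q4 : ((S.filter (fun q => q.2 - q.1 ∈ R)).card : ℤ) ≤ P.card * R.card := by
    exact_mod_cast hSR
  have q5 : ((S.filter (fun q => q.2 - q.1 ∈ R)).card : ℤ) +
      (S.filter (fun q => ¬ q.2 - q.1 ∈ R)).card = S.card := by exact_mod_cast hsplit
  show 3 * (F N χ1 : ℤ) + (P.card : ℤ) ^ 2 - 3 * P.card - 24 * P.card * R.card ≤ 3 * F N χ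
  nlinarith [q1, q2, q3, q4, q5, hfin]

end Pool.Agent.Helper86.LO
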